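import Pool.Agent.Helper41.PermLimit

/-!
# The vanishing probability of the permanent of a random matrix over a finite field

For every finite field `F` of odd cardinality `q`, the proportion of `n × n` matrices over `F`
with vanishing permanent tends to `1 / q` as `n → ∞`.
-/

namespace Pool.Agent.Results.MP_b575e9_co.PermanentVanishing

open Filter Topology

/-- Full answer (yes) to Q1: for every finite field `F` with `q = |F|` odd,
`Pr[per A_n = 0] → 1 / q` for a uniformly random `n × n` matrix `A_n` over `F`. -/
theorem result (F : Type*) [Field F] [Fintype F] [DecidableEq F] (hF : Odd (Fintype.card F)) :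
    Tendsto (fun n : ℕ =>
      ((Finset.univ.filter (fun A : Matrix (Fin n) (Fin n) F => A.permanent = 0)).card : ℝ) /
        (Fintype.card (Matrix (Fin n) (Fin n) F) : ℝ))
      atTop (𝓝 (1 / (Fintype.card F : ℝ))) := by
  have h2 : (2 : F) ≠ 0 := by
    intro h
    obtain ⟨k, hk⟩ := hF
    have h1 : ((Fintype.card F : ℕ) : F) = 0 := FiniteField.cast_card_eq_zero F
    rw [hk] at h1
    push_cast at h1
    rw [h, zero_mul, zero_add] at h1
    exact one_ne_zero h1
  have h := PermFq.permanent_limit (F := F) h2
  refine h.congr (fun n => ?_)
  congr 1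
  have hc : Fintype.card (Matrix (Fin n) (Fin n) F) = Fintype.card F ^ (n * n) := by
    have h3 : Fintype.card (Matrix (Fin n) (Fin n) F) = Fintype.card (Fin n → Fin n → F) :=
      Fintype.card_congr (Equiv.refl _)
    rw [h3, Fintype.card_fun, Fintype.card_fun, Fintype.card_fin, ← pow_mul]
  rw [hc]
  push_cast
  rfl

end Pool.Agent.Results.MP_b575e9_co.PermanentVanishing
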